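import Pool.Agent.Q126.MD.Asm
import Pool.Agent.Q126.MD.TaskAcute
import Pool.Agent.Q126.MD.TaskAll
import Pool.Agent.Q126.MD.TaskArea
import Pool.Agent.Q126.MD.TaskBdist
import Pool.Agent.Q126.MD.TaskCentre
import Pool.Agent.Q126.MD.TaskCorner
import Pool.Agent.Q126.MD.TaskCover
import Pool.Agent.Q126.MD.TaskFraction
import Pool.Agent.Q126.MD.TaskG0
import Pool.Agent.Q126.MD.TaskGJensen
import Pool.Agent.Q126.MD.TaskHull
import Pool.Agent.Q126.MD.TaskI1
import Pool.Agent.Q126.MD.TaskI2
import Pool.Agent.Q126.MD.TaskI3
import Pool.Agent.Q126.MD.TaskIso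
import Pool.Agent.Q126.MD.TaskIsosceles
import Pool.Agent.Q126.MD.TaskLBall
import Pool.Agent.Q126.MD.TaskLCell
import Pool.Agent.Q126.MD.TaskLCover
import Pool.Agent.Q126.MD.TaskLEquil
import Pool.Agent.Q126.MD.TaskLNearest
import Pool.Agent.Q126.MD.TaskLTile
import Pool.Agent.Q126.MD.TaskLimit
import Pool.Agent.Q126.MD.TaskNet
import Pool.Agent.Q126.MD.TaskNull
import Pool.Agent.Q126.MD.TaskObtuse
import Pool.Agent.Q126.MD.TaskObtuseNormal
import Pool.Agent.Q126.MD.TaskOrder
import Pool.Agent.Q126.MD.TaskOutside
import Pool.Agent.Q126.MD.TaskPerTri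
import Pool.Agent.Q126.MD.TaskRadius
import Pool.Agent.Q126.MD.TaskRightHull
import Pool.Agent.Q126.MD.TaskRightInt
import Pool.Agent.Q126.MD.TaskSetup
import Pool.Agent.Q126.MD.TaskSplit
import Pool.Agent.Q126.MD.TaskStretch
import Pool.Agent.Q126.MD.TaskSum
import Pool.Agent.Q126.MD.TaskTransfer
import Pool.Agent.Q126.MD.TaskUnique
import Pool.Agent.Q126.MD.TaskUpper
import Pool.Agent.Q126.MD.TaskVol

/-!
# The supremum of the mean distance to the boundary over the inradius, for planar domains

For a bounded open set `Ω` of the plane let `F Ω` be the mean value over `Ω` of the distance to the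
boundary, divided by the inradius. The supremum of `F` is `1/3 + (log 3)/4`, the mean distance to the centre in a
regular hexagon of side 1 (MP_50360a_an, Q1: the displayed equality is true).

Upper bound: a fine net `S` in general position of the complement of `Ω`; its Delaunay triangles which
meet `Ω` have circumradius at most the inradius plus the mesh, and almost all the area of each of them is in
`Ω` or it is very small. In every triangle inscribed in a circle of radius `R` the mean distance to the nearest
vertex is at most `(1/3 + (log 3)/4) R`: for non-obtuse triangles it is a sum over three isosceles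
triangles and a one-variable inequality; stretching an obtuse triangle orthogonally to its longest side
increases the mean. Lower bound: large balls minus the hexagonal lattice.
-/

set_option autoImplicit false

open MeasureTheory

namespace Pool.Agent.Results.MP_50360a_an.SupremumMeanDistance

/-- The Euclidean plane. -/
abbrev Plane : Type := EuclideanSpace ℝ (Fin 2)

/-- The distance of `x` to the boundary of `Ω`. -/
noncomputable def boundaryDistance (Ω : Set Plane) (x : Plane) : ℝ := Metric.infDist x (frontier Ω)

/-- The inradius: the supremum over `Ω` of the distance to the boundary. -/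
noncomputable def inradius (Ω : Set Plane) : ℝ := sSup (boundaryDistance Ω '' Ω)

/-- The functional: the mean over `Ω` of the distance to the boundary (`⨍` is the average with respect to the
Lebesgue measure), divided by the inradius. -/
noncomputable def F (Ω : Set Plane) : ℝ := (⨍ x in Ω, boundaryDistance Ω x) / inradius Ω

/-- **Main theorem.** `1/3 + (log 3)/4` is the supremum (least upper bound) of `F Ω` over all non-empty bounded
open sets `Ω` of the plane. -/
theorem result :
    IsLUB {y : ℝ | ∃ Ω : Set Plane, IsOpen Ω ∧ Bornology.IsBounded Ω ∧ Ω.Nonempty ∧ y = F Ω}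
      (1 / 3 + Real.log 3 / 4) := by
  have A := Q126.MD.good_all Q126.MD.G0 Q126.MD.taskGJensen Q126.MD.I1 Q126.MD.taskI2 Q126.MD.taskI3
    Q126.MD.RightInt Q126.MD.RightHull Q126.MD.Iso Q126.MD.taskVol Q126.MD.Isosceles Q126.MD.taskSplit
    Q126.MD.Centre Q126.MD.Area Q126.MD.Acute Q126.MD.Stretch Q126.MD.ObtuseNormal Q126.MD.Obtuse
    Q126.MD.Order Q126.MD.All
  have U := Q126.MD.upper A Q126.MD.Cover Q126.MD.Unique Q126.MD.Null Q126.MD.Net Q126.MD.Corner
    Q126.MD.Fraction Q126.MD.Bdist Q126.MD.taskSetup Q126.MD.Hull Q126.MD.Radius Q126.MD.Outside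
    Q126.MD.PerTri Q126.MD.Sum Q126.MD.Limit Q126.MD.Upper
  have L := Q126.MD.lower Q126.MD.G0 Q126.MD.RightInt Q126.MD.RightHull Q126.MD.Iso Q126.MD.Bdist
    Q126.MD.LCover Q126.MD.LNearest Q126.MD.LEquil Q126.MD.LCell Q126.MD.LTile
    Q126.MD.taskLBall
  exact Q126.MD.final Q126.MD.Transfer U L

end Pool.Agent.Results.MP_50360a_an.SupremumMeanDistance
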